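import Pool.Agent.H85.KS2.Targets

/-!
# KS2 board, RH: Hoelder's inequality for the sums over pairs of points
helper33
-/

set_option autoImplicit false

open scoped BigOperators

noncomputable section

open Pool.Agent.H98.KS Pool.Agent.H85.KS2

namespace Pool.Agent.H33.KS2

/-- the coordinates in which two points agree -/
def zs {d : ℕ} (y y' : Fin d → ℤ) : Finset (Fin d) := Finset.univ.filter fun i => y' i = y i

theorem power_mean {ι : Type*} (G : Finset ι) (a : ι → ℝ) (v : ℕ) (m S : ℝ) (hv : 1 ≤ v)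
    (ha : ∀ i ∈ G, 0 ≤ a i) (hm : (G.card : ℝ) ≤ m) (hS : ∑ i ∈ G, a i ^ v ≤ S) :
    ∑ i ∈ G, a i ≤ m ^ (1 - 1 / (v : ℝ)) * S ^ (1 / (v : ℝ)) := by
  obtain ⟨n, rfl⟩ : ∃ n, v = n + 1 := ⟨v - 1, by omega⟩
  have hv0 : (0 : ℝ) < ((n + 1 : ℕ) : ℝ) := by positivity
  have hsum0 : 0 ≤ ∑ i ∈ G, a i := Finset.sum_nonneg ha
  have hm0 : 0 ≤ m := le_trans (Nat.cast_nonneg _) hm
  have hS0 : 0 ≤ S := le_trans (Finset.sum_nonneg fun i hi => pow_nonneg (ha i hi) _) hS
  have h1 : (∑ i ∈ G, a i) ^ (n + 1) ≤ m ^ n * S :=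
    (pow_sum_le_card_mul_sum_pow ha n).trans
      (mul_le_mul (pow_le_pow_left₀ (Nat.cast_nonneg _) hm n) hS
        (Finset.sum_nonneg fun i hi => pow_nonneg (ha i hi) _) (pow_nonneg hm0 n))
  have h2 : ∑ i ∈ G, a i = ((∑ i ∈ G, a i) ^ (n + 1)) ^ (1 / ((n + 1 : ℕ) : ℝ)) := by
    rw [← Real.rpow_natCast, ← Real.rpow_mul hsum0, mul_one_div_cancel hv0.ne', Real.rpow_one]
  rw [h2]
  refine (Real.rpow_le_rpow (pow_nonneg hsum0 _) h1 (by positivity)).trans (le_of_eq ?_)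
  rw [Real.mul_rpow (pow_nonneg hm0 n) hS0, ← Real.rpow_natCast m n, ← Real.rpow_mul hm0]
  congr 2
  push_cast
  field_simp
  ring

theorem card_fib {d : ℕ} (L : ℕ) (hL : 1 ≤ L) (y : Fin d → ℤ) (Z : Finset (Fin d))
    (G : Finset (Fin d → ℤ)) (hG : ∀ y' ∈ G, zs y y' = Z ∧ y' ∈ bx d (-(2 * (L : ℤ))) (3 * L)) :
    (G.card : ℝ) ≤ (6 * (L : ℝ)) ^ (d - Z.card) := by
  have hsub : G ⊆ Fintype.piFinset fun i => if i ∈ Z then {y i} else
      Finset.Icc (-(2 * (L : ℤ))) (3 * L) := by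
    intro y' hy'
    obtain ⟨h1, h2⟩ := hG y' hy'
    rw [Fintype.mem_piFinset]
    intro i
    split_ifs with hi
    · rw [← h1, zs, Finset.mem_filter] at hi
      rw [Finset.mem_singleton]
      exact hi.2
    · rw [bx, Fintype.mem_piFinset] at h2
      exact h2 i
  have h3 := Finset.card_le_card hsub
  rw [Fintype.card_piFinset] at h3
  have h4 : ∏ i : Fin d, (if i ∈ Z then ({y i} : Finset ℤ) else
      Finset.Icc (-(2 * (L : ℤ))) (3 * L)).card = (5 * L + 1) ^ (d - Z.card) := by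
    have h5 : ∀ i : Fin d, (if i ∈ Z then ({y i} : Finset ℤ) else
      Finset.Icc (-(2 * (L : ℤ))) (3 * L)).card = if i ∈ Z then 1 else 5 * L + 1 := by
      intro i
      split_ifs
      · rfl
      · rw [Int.card_Icc]
        omega
    simp only [h5]
    rw [Finset.prod_ite, Finset.prod_const_one, one_mul, Finset.prod_const]
    congr 1
    have h6 : Finset.univ.filter (fun i : Fin d => i ∉ Z) = Zᶜ := by
      ext i
      simp
    rw [h6, Finset.card_compl, Fintype.card_fin]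
  rw [h4] at h3
  calc (G.card : ℝ) ≤ (((5 * L + 1) ^ (d - Z.card) : ℕ) : ℝ) := by exact_mod_cast h3
    _ ≤ (6 * (L : ℝ)) ^ (d - Z.card) := by
        push_cast
        refine pow_le_pow_left₀ (by positivity) ?_ _
        have : (1 : ℝ) ≤ L := by exact_mod_cast hL
        linarith

theorem pow_fib {d : ℕ} (L v : ℕ) (U : ℤ → ℝ) (σ : Fin d → ℤ)
    (hσ : ∀ i, σ i = 1 ∨ σ i = -1) (hU : ∀ h, 0 ≤ U h)
    (y : Fin d → ℤ) (hy : y ∈ bx d (-(2 * (L : ℤ))) (3 * L)) (Z : Finset (Fin d))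
    (G : Finset (Fin d → ℤ)) (hG : ∀ y' ∈ G, zs y y' = Z ∧ y' ∈ bx d (-(2 * (L : ℤ))) (3 * L)) :
    ∑ y' ∈ G, (∏ i ∈ Zᶜ, U (σ i * (y' i - y i))) ^ v ≤
      (∑ h ∈ HH L, U h ^ v) ^ (d - Z.card) := by
  have h0 : (∑ h ∈ HH L, U h ^ v) ^ (d - Z.card) =
      ∑ x ∈ Fintype.piFinset (fun i => if i ∈ Z then ({0} : Finset ℤ) else HH L),
        ∏ i, (if i ∈ Z then 1 else U (x i) ^ v) := by
    rw [← Finset.prod_univ_sum (t := fun i => if i ∈ Z then ({0} : Finset ℤ) else HH L)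
      (f := fun i h => if i ∈ Z then (1 : ℝ) else U h ^ v)]
    have h1 : ∀ i : Fin d, ∑ h ∈ (if i ∈ Z then ({0} : Finset ℤ) else HH L),
        (if i ∈ Z then (1 : ℝ) else U h ^ v) = if i ∈ Z then 1 else ∑ h ∈ HH L, U h ^ v := by
      intro i
      split_ifs <;> simp
    simp only [h1]
    rw [Finset.prod_ite, Finset.prod_const_one, one_mul, Finset.prod_const]
    have h6 : Finset.univ.filter (fun i : Fin d => i ∉ Z) = Zᶜ := by
      ext i
      simp
    rw [h6, Finset.card_compl, Fintype.card_fin]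
  rw [h0]
  have hterm : ∀ y' ∈ G, (∏ i ∈ Zᶜ, U (σ i * (y' i - y i))) ^ v =
      ∏ i, (if i ∈ Z then (1 : ℝ) else U (σ i * (y' i - y i)) ^ v) := by
    intro y' _
    rw [Finset.prod_ite, Finset.prod_const_one, one_mul, ← Finset.prod_pow]
    refine Finset.prod_congr ?_ fun _ _ => rfl
    ext i
    simp
  rw [Finset.sum_congr rfl hterm]
  have hinj : Set.InjOn (fun (y' : Fin d → ℤ) (i : Fin d) => σ i * (y' i - y i)) G := by
    intro a _ b _ hab
    funext i
    have h1 := congrFun hab i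
    simp only at h1
    rcases hσ i with h | h <;> rw [h] at h1 <;> linarith
  rw [← Finset.sum_image (g := fun (y' : Fin d → ℤ) (i : Fin d) => σ i * (y' i - y i))
    (f := fun x => ∏ i, (if i ∈ Z then (1 : ℝ) else U (x i) ^ v)) hinj]
  refine Finset.sum_le_sum_of_subset_of_nonneg ?_ fun x _ _ => ?_
  · intro x hx
    obtain ⟨y', hy', rfl⟩ := Finset.mem_image.mp hx
    obtain ⟨h1, h2⟩ := hG y' hy'
    rw [Fintype.mem_piFinset]
    intro i
    rw [bx, Fintype.mem_piFinset] at h2 hy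
    have h3 := Finset.mem_Icc.mp (h2 i)
    have h4 := Finset.mem_Icc.mp (hy i)
    split_ifs with hi
    · rw [← h1, zs, Finset.mem_filter] at hi
      rw [Finset.mem_singleton, hi.2, sub_self, mul_zero]
    · rw [← h1, zs, Finset.mem_filter] at hi
      have h5 : y' i ≠ y i := fun h => hi ⟨Finset.mem_univ _, h⟩
      rw [HH, Finset.mem_erase, JJ, Finset.mem_Icc]
      rcases hσ i with h | h <;> rw [h] <;> omega
  · refine Finset.prod_nonneg fun i _ => ?_
    split_ifs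
    · exact zero_le_one
    · exact pow_nonneg (hU _) _

theorem ks2_RH : T_RH := by
  intro d L v U σ F hL hv hσ hU hU0 hF
  have hfib : ∀ y ∈ F, ∀ Z : Finset (Fin d),
      ∑ y' ∈ F.filter (fun y' => zs y y' = Z), ∏ i, U (σ i * (y' i - y i)) ≤
        (L : ℝ) ^ Z.card * ((min (F.card : ℝ) ((6 * (L : ℝ)) ^ (d - Z.card))) ^ (1 - 1 / (v : ℝ)) *
          (∑ h ∈ HH L, U h ^ v) ^ (((d - Z.card : ℕ) : ℝ) / v)) := by
    intro y hy Z
    have hG : ∀ y' ∈ F.filter (fun y' => zs y y' = Z),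
        zs y y' = Z ∧ y' ∈ bx d (-(2 * (L : ℤ))) (3 * L) := by
      intro y' hy'
      rw [Finset.mem_filter] at hy'
      exact ⟨hy'.2, hF hy'.1⟩
    have h1 : ∀ y' ∈ F.filter (fun y' => zs y y' = Z), ∏ i, U (σ i * (y' i - y i)) =
        (L : ℝ) ^ Z.card * ∏ i ∈ Zᶜ, U (σ i * (y' i - y i)) := by
      intro y' hy'
      rw [← Finset.prod_mul_prod_compl Z]
      congr 1
      rw [← Finset.prod_const]
      refine Finset.prod_congr rfl fun i hi => ?_
      have h2 := (hG y' hy').1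
      rw [← h2, zs, Finset.mem_filter] at hi
      rw [hi.2, sub_self, mul_zero, hU0]
    rw [Finset.sum_congr rfl h1, ← Finset.mul_sum]
    refine mul_le_mul_of_nonneg_left ?_ (by positivity)
    have hS0 : 0 ≤ ∑ h ∈ HH L, U h ^ v := Finset.sum_nonneg fun h _ => pow_nonneg (hU h) _
    have h3 := power_mean (F.filter (fun y' => zs y y' = Z))
      (fun y' => ∏ i ∈ Zᶜ, U (σ i * (y' i - y i))) v
      (min (F.card : ℝ) ((6 * (L : ℝ)) ^ (d - Z.card)))
      ((∑ h ∈ HH L, U h ^ v) ^ (d - Z.card)) hv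
      (fun y' _ => Finset.prod_nonneg fun i _ => hU _)
      (le_min (by exact_mod_cast Finset.card_filter_le _ _) (card_fib L hL y Z _ hG))
      (pow_fib L v U σ hσ hU y (hF hy) Z _ hG)
    refine h3.trans (le_of_eq ?_)
    congr 1
    rw [← Real.rpow_natCast, ← Real.rpow_mul hS0, mul_one_div]
  have hsplit : ∀ y ∈ F, ∑ y' ∈ F, ∏ i, U (σ i * (y' i - y i)) =
      ∑ Z : Finset (Fin d), ∑ y' ∈ F.filter (fun y' => zs y y' = Z),
        ∏ i, U (σ i * (y' i - y i)) := by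
    intro y _
    rw [← Finset.sum_fiberwise_of_maps_to (t := Finset.univ) (g := fun y' => zs y y')
      (fun _ _ => Finset.mem_univ _)]
  rw [Finset.sum_congr rfl hsplit, Finset.sum_comm]
  refine Finset.sum_le_sum fun Z _ => ?_
  refine (Finset.sum_le_sum fun y hy => hfib y hy Z).trans (le_of_eq ?_)
  rw [Finset.sum_const, nsmul_eq_mul]
  ring

end Pool.Agent.H33.KS2
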