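import Pool.Agent.H85.KS2.Targets
import Pool.Agent.H36.KS.AX
import Pool.Agent.H14.KS.FJ

/-!
# KS2 board, V1: completion of the sums over intervals
helper33
-/

set_option autoImplicit false

open scoped BigOperators

noncomputable section

open Pool.Agent.H98.KS Pool.Agent.H85.KS2

namespace Pool.Agent.H33.KS2

open Pool.Agent.H36.KS (ee_norm ee_add ee_int ee_sub_one_ge)
open Pool.Agent.H14.KS (ee_eq_one_iff ee_nat_mul)

/-- orthogonality of the additive characters -/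
theorem orth (M : ℕ) (hM : 1 ≤ M) (n : ℤ) (hn : |n| < M) :
    ∑ j ∈ Finset.range M, ee ((j : ℝ) / M * n) = if n = 0 then (M : ℂ) else 0 := by
  have hM0 : (M : ℝ) ≠ 0 := by
    have : (0 : ℝ) < M := by exact_mod_cast hM
    exact this.ne'
  split_ifs with h
  · rw [h]
    have : ∀ j ∈ Finset.range M, ee ((j : ℝ) / M * ((0 : ℤ) : ℝ)) = 1 := by
      intro j _
      rw [Int.cast_zero, mul_zero]
      have := ee_int 0
      rwa [Int.cast_zero] at this
    rw [Finset.sum_congr rfl this]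
    simp
  · have h1 : ∀ j ∈ Finset.range M, ee ((j : ℝ) / M * n) = ee ((n : ℝ) / M) ^ j := by
      intro j _
      rw [← ee_nat_mul]
      congr 1
      ring
    rw [Finset.sum_congr rfl h1]
    have hne : ee ((n : ℝ) / M) ≠ 1 := by
      intro h2
      obtain ⟨m, hm⟩ := (ee_eq_one_iff _).mp h2
      rw [div_eq_iff hM0] at hm
      have hm' : n = m * M := by exact_mod_cast hm
      rcases eq_or_ne m 0 with h0 | h0
      · rw [h0, zero_mul] at hm'
        exact h hm'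
      · rw [hm', abs_mul, Nat.abs_cast] at hn
        have h3 : (1 : ℤ) ≤ |m| := Int.one_le_abs h0
        have h4 : (0 : ℤ) < M := by exact_mod_cast hM
        nlinarith
    rw [geom_sum_eq hne, ← ee_nat_mul]
    have : (M : ℝ) * ((n : ℝ) / M) = n := by
      field_simp
    rw [this, ee_int, sub_self, zero_div]

theorem ico_tel (a : ℤ) (n : ℕ) (f : ℤ → ℂ) :
    ∑ t ∈ Finset.Ico a (a + n), (f (t + 1) - f t) = f (a + n) - f a := by
  induction n with
  | zero => simp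
  | succ n ih =>
    have h1 : Finset.Ico a (a + ((n + 1 : ℕ) : ℤ)) = insert (a + (n : ℤ)) (Finset.Ico a (a + n)) := by
      ext x
      simp only [Finset.mem_Ico, Finset.mem_insert]
      push_cast
      omega
    have h2 : (a + (n : ℤ)) ∉ Finset.Ico a (a + n) := by simp
    rw [h1, Finset.sum_insert h2, ih]
    push_cast
    rw [show a + (n : ℤ) + 1 = a + ((n : ℤ) + 1) by ring]
    ring

/-- geometric sums over intervals -/
theorem geo_le (x : ℝ) (a b : ℤ) (hab : a ≤ b) :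
    ‖ee (-x) - 1‖ * ‖∑ t ∈ Finset.Ico a b, ee (-(x * t))‖ ≤ 2 := by
  obtain ⟨n, hn⟩ : ∃ n : ℕ, b = a + n := ⟨(b - a).toNat, by omega⟩
  subst hn
  rw [← norm_mul, Finset.mul_sum]
  have h1 : ∀ t ∈ Finset.Ico a (a + (n : ℤ)), (ee (-x) - 1) * ee (-(x * t)) =
      ee (-(x * ((t + 1 : ℤ) : ℝ))) - ee (-(x * t)) := by
    intro t _
    rw [sub_mul, one_mul, ← ee_add]
    congr 2
    push_cast
    ring
  rw [Finset.sum_congr rfl h1, ico_tel a n (fun t => ee (-(x * t)))]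
  calc _ ≤ ‖ee (-(x * ((a + n : ℤ) : ℝ)))‖ + ‖ee (-(x * (a : ℝ)))‖ := norm_sub_le _ _
    _ = 2 := by rw [ee_norm, ee_norm]; norm_num

theorem cj_le (L j : ℕ) (a b : ℤ) (hab : a ≤ b) (hj0 : 1 ≤ j) (hj1 : j < 16 * L + 1) :
    ‖(1 / ((16 * (L : ℝ) + 1 : ℝ) : ℂ)) * ∑ t ∈ Finset.Ico a b,
      ee (-((j : ℝ) / (16 * (L : ℝ) + 1) * t))‖ ≤ ww L j := by
  obtain ⟨M, hM⟩ : ∃ M : ℝ, M = 16 * (L : ℝ) + 1 := ⟨_, rfl⟩
  have hjM : (j : ℝ) + 1 ≤ M := by
    rw [hM]
    have : ((j + 1 : ℕ) : ℝ) ≤ ((16 * L + 1 : ℕ) : ℝ) := by exact_mod_cast hj1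
    push_cast at this
    exact this
  have hj : (1 : ℝ) ≤ j := by exact_mod_cast hj0
  have hMpos : 0 < M := by linarith
  have hgeo := geo_le ((j : ℝ) / M) a b hab
  rw [ww, if_neg (by omega), ← hM]
  obtain ⟨G, hG⟩ : ∃ G : ℂ, G = ∑ t ∈ Finset.Ico a b, ee (-((j : ℝ) / M * t)) := ⟨_, rfl⟩
  rw [← hG] at hgeo ⊢
  rw [norm_mul, norm_div, norm_one, Complex.norm_real, Real.norm_of_nonneg hMpos.le]
  have h1 : 0 < (j : ℝ) := by linarith
  have h2 : 0 < M - j := by linarith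
  have hGn := norm_nonneg G
  by_cases hc : (j : ℝ) / M ≤ 1 / 2
  · have h3 : 4 * ((j : ℝ) / M) ≤ ‖ee (-((j : ℝ) / M)) - 1‖ := by
      have := ee_sub_one_ge (-((j : ℝ) / M)) (by
        rw [abs_neg, abs_of_nonneg (by positivity)]
        exact hc)
      rwa [abs_neg, abs_of_nonneg (by positivity)] at this
    have h4 : 4 * ((j : ℝ) / M) * ‖G‖ ≤ 2 :=
      (mul_le_mul_of_nonneg_right h3 hGn).trans hgeo
    have h5 : 1 / M * ‖G‖ ≤ 1 / (j : ℝ) := by
      rw [le_div_iff₀ h1]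
      have : 1 / M * ‖G‖ * (j : ℝ) = (4 * ((j : ℝ) / M) * ‖G‖) / 4 := by ring
      rw [this]
      linarith
    have h6 : 0 ≤ 1 / (M - j) := by positivity
    linarith
  · have h3 : 4 * ((M - j) / M) ≤ ‖ee (-((j : ℝ) / M)) - 1‖ := by
      have h7 : ee (-((j : ℝ) / M)) = ee ((M - j) / M) := by
        have h8 : (M - j) / M = -((j : ℝ) / M) + ((1 : ℤ) : ℝ) := by
          push_cast
          field_simp
          ring
        rw [h8, ee_add, ee_int, mul_one]
      rw [h7]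
      have h9 : |(M - j) / M| = (M - j) / M := abs_of_nonneg (by positivity)
      have := ee_sub_one_ge ((M - j) / M) (by
        rw [h9]
        have : (M - j) / M = 1 - (j : ℝ) / M := by field_simp
        rw [this]
        push Not at hc
        linarith)
      rwa [h9] at this
    have h4 : 4 * ((M - j) / M) * ‖G‖ ≤ 2 :=
      (mul_le_mul_of_nonneg_right h3 hGn).trans hgeo
    have h5 : 1 / M * ‖G‖ ≤ 1 / (M - j) := by
      rw [le_div_iff₀ h2]
      have : 1 / M * ‖G‖ * (M - j) = (4 * ((M - j) / M) * ‖G‖) / 4 := by ring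
      rw [this]
      linarith
    have h6 : 0 ≤ 1 / (j : ℝ) := by positivity
    linarith

theorem c0_le (L : ℕ) (a b : ℤ) (ha : -(8 * (L : ℤ)) ≤ a) (hb : b ≤ 8 * L + 1) :
    ‖(1 / ((16 * (L : ℝ) + 1 : ℝ) : ℂ)) * ∑ t ∈ Finset.Ico a b,
      ee (-(((0 : ℕ) : ℝ) / (16 * (L : ℝ) + 1) * t))‖ ≤ ww L 0 := by
  have hMpos : (0 : ℝ) < 16 * (L : ℝ) + 1 := by positivity
  rw [ww, if_pos rfl, norm_mul, norm_div, norm_one, Complex.norm_real,
    Real.norm_of_nonneg hMpos.le, one_div, inv_mul_le_iff₀ hMpos, mul_one]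
  refine (norm_sum_le _ _).trans ?_
  simp only [ee_norm]
  rw [Finset.sum_const, nsmul_eq_mul, mul_one, Int.card_Ico]
  have : (b - a).toNat ≤ 16 * L + 1 := by omega
  exact_mod_cast this

theorem ks2_V1 (hWS2 : T_WS2) : T_V1 := by
  intro k L θ h a b hL ha hb
  obtain ⟨hw, -⟩ := hWS2 L hL
  rcases lt_or_ge b a with hab | hab
  · rw [Finset.Ico_eq_empty (by omega), Finset.sum_empty, norm_zero]
    exact Finset.sum_nonneg fun j hj => mul_nonneg (hw j hj) (norm_nonneg _)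
  have hMc : ((16 * L + 1 : ℕ) : ℝ) = 16 * (L : ℝ) + 1 := by push_cast; ring
  have hMpos : (0 : ℝ) < 16 * (L : ℝ) + 1 := by positivity
  have hM0 : ((16 * (L : ℝ) + 1 : ℝ) : ℂ) ≠ 0 := by exact_mod_cast hMpos.ne'
  have key : ∑ u ∈ Finset.Ico a b, ee (θ * (dl k h u : ℝ)) =
      ∑ j ∈ Finset.range (16 * L + 1), ((1 / ((16 * (L : ℝ) + 1 : ℝ) : ℂ)) *
        ∑ t ∈ Finset.Ico a b, ee (-((j : ℝ) / (16 * (L : ℝ) + 1) * t))) *
        AA k L θ h ((j : ℝ) / (16 * (L : ℝ) + 1)) := by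
    have h1 : ∀ j ∈ Finset.range (16 * L + 1), ((1 / ((16 * (L : ℝ) + 1 : ℝ) : ℂ)) *
        ∑ t ∈ Finset.Ico a b, ee (-((j : ℝ) / (16 * (L : ℝ) + 1) * t))) *
        AA k L θ h ((j : ℝ) / (16 * (L : ℝ) + 1)) =
        ∑ u ∈ JJ L, ∑ t ∈ Finset.Ico a b, ee (θ * (dl k h u : ℝ)) *
          (1 / ((16 * (L : ℝ) + 1 : ℝ) : ℂ)) *
          ee ((j : ℝ) / ((16 * L + 1 : ℕ) : ℝ) * ((u - t : ℤ) : ℝ)) := by
      intro j _
      rw [AA, Finset.mul_sum]
      refine Finset.sum_congr rfl fun u _ => ?_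
      rw [Finset.mul_sum, Finset.sum_mul]
      refine Finset.sum_congr rfl fun t _ => ?_
      rw [hMc]
      have h2 : (j : ℝ) / (16 * (L : ℝ) + 1) * ((u - t : ℤ) : ℝ) =
          -((j : ℝ) / (16 * (L : ℝ) + 1) * t) + (j : ℝ) / (16 * (L : ℝ) + 1) * u := by
        push_cast
        ring
      rw [h2, ee_add, ee_add]
      ring
    rw [Finset.sum_congr rfl h1, Finset.sum_comm]
    have h3 : ∀ u ∈ JJ L, ∑ j ∈ Finset.range (16 * L + 1), ∑ t ∈ Finset.Ico a b,
        ee (θ * (dl k h u : ℝ)) * (1 / ((16 * (L : ℝ) + 1 : ℝ) : ℂ)) *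
          ee ((j : ℝ) / ((16 * L + 1 : ℕ) : ℝ) * ((u - t : ℤ) : ℝ)) =
        if u ∈ Finset.Ico a b then ee (θ * (dl k h u : ℝ)) else 0 := by
      intro u hu
      rw [Finset.sum_comm]
      have h4 : ∀ t ∈ Finset.Ico a b, ∑ j ∈ Finset.range (16 * L + 1),
          ee (θ * (dl k h u : ℝ)) * (1 / ((16 * (L : ℝ) + 1 : ℝ) : ℂ)) *
          ee ((j : ℝ) / ((16 * L + 1 : ℕ) : ℝ) * ((u - t : ℤ) : ℝ)) =
          if t = u then ee (θ * (dl k h u : ℝ)) else 0 := by
        intro t ht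
        rw [← Finset.mul_sum, orth (16 * L + 1) (by omega) (u - t) (by
          rw [JJ, Finset.mem_Icc] at hu
          rw [Finset.mem_Ico] at ht
          rw [abs_lt]
          push_cast
          omega)]
        by_cases htu : t = u
        · rw [if_pos (by omega), if_pos htu]
          have h5 : (((16 * L + 1 : ℕ) : ℂ)) = ((16 * (L : ℝ) + 1 : ℝ) : ℂ) := by
            push_cast
            ring
          rw [h5, mul_assoc, one_div, inv_mul_cancel₀ hM0, mul_one]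
        · rw [if_neg (by omega), if_neg htu, mul_zero]
      rw [Finset.sum_congr rfl h4, Finset.sum_ite_eq']
    rw [Finset.sum_congr rfl h3, ← Finset.sum_filter]
    refine Finset.sum_congr ?_ fun _ _ => rfl
    ext u
    rw [Finset.mem_filter, JJ, Finset.mem_Icc, Finset.mem_Ico]
    omega
  rw [key, VV]
  refine (norm_sum_le _ _).trans (Finset.sum_le_sum fun j hj => ?_)
  rw [norm_mul]
  refine mul_le_mul_of_nonneg_right ?_ (norm_nonneg _)
  rcases Nat.eq_zero_or_pos j with h0 | h0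
  · subst h0
    exact c0_le L a b ha hb
  · exact cj_le L j a b hab h0 (Finset.mem_range.mp hj)

end Pool.Agent.H33.KS2
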